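/-
helper25. MRP, module ENF: energy of two path measures with flat hitting probabilities.
-/
import Pool.Agent.H74.MRP.Def

set_option autoImplicit false

namespace Pool.MRP

open Finset Pool.MRW
open scoped Classical

theorem t_enf : ENFStmt := by
  intro V _ H n n' b h h' hb hnn hnn' hs hs' hbd hn hn'
  have hcard : ∀ k : ℕ, k ≤ H → ((Ioo 0 k).card : ℝ) ≤ H := by
    intro k hk
    rw [Nat.card_Ioo]
    exact_mod_cast (by omega : k - 0 - 1 ≤ H)
  have h1 : ∀ w, ∑ s ∈ Ioo 0 n, h s w ≤ (H : ℝ) * b := by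
    intro w
    calc ∑ s ∈ Ioo 0 n, h s w ≤ ∑ s ∈ Ioo 0 n, b :=
          Finset.sum_le_sum fun s hs0 => hbd s w (Finset.mem_Ioo.mp hs0).1 (Finset.mem_Ioo.mp hs0).2
      _ = ((Ioo 0 n).card : ℝ) * b := by rw [Finset.sum_const, nsmul_eq_mul]
      _ ≤ (H : ℝ) * b := mul_le_mul_of_nonneg_right (hcard n hn) hb
  have hHb : 0 ≤ (H : ℝ) * b := mul_nonneg (Nat.cast_nonneg _) hb
  refine ⟨?_, ?_⟩
  · calc ∑ w, (∑ s ∈ Ioo 0 n, h s w) * (∑ s ∈ Ioo 0 n', h' s w)
        ≤ ∑ w, ((H : ℝ) * b) * (∑ s ∈ Ioo 0 n', h' s w) :=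
          Finset.sum_le_sum fun w _ => mul_le_mul_of_nonneg_right (h1 w)
            (Finset.sum_nonneg fun s _ => hnn' s w)
      _ = ((H : ℝ) * b) * ∑ s ∈ Ioo 0 n', ∑ w, h' s w := by
          rw [← Finset.mul_sum, Finset.sum_comm]
      _ ≤ ((H : ℝ) * b) * ∑ s ∈ Ioo 0 n', (1 : ℝ) :=
          mul_le_mul_of_nonneg_left (Finset.sum_le_sum fun s _ => hs' s) hHb
      _ = ((H : ℝ) * b) * ((Ioo 0 n').card : ℝ) := by rw [Finset.sum_const, nsmul_eq_mul, mul_one]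
      _ ≤ ((H : ℝ) * b) * (H : ℝ) := mul_le_mul_of_nonneg_left (hcard n' hn') hHb
      _ = (H : ℝ) ^ 2 * b := by ring
  · intro w
    rcases Nat.eq_zero_or_pos H with h0 | h0
    · subst h0
      have : n = 0 := by omega
      subst this
      simp
    · refine (h1 w).trans ?_
      have h2 : (1 : ℝ) ≤ H := by exact_mod_cast h0
      have h3 : (H : ℝ) * b * 1 ≤ (H : ℝ) * b * H := mul_le_mul_of_nonneg_left h2 hHb
      nlinarith

end Pool.MRP
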