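/-
helper25. MRP, module GRT: times along the walks of a graded kernel.
-/
import Pool.Agent.H74.MRP.Def

set_option autoImplicit false

namespace Pool.MRP

open Finset Pool.MRW
open scoped Classical

theorem t_grt (hP : PWSStmt) (hS : SIGStmt) : GRTStmt := by
  intro Ω V _ _ pr tm c Q hG
  have hp := hP Ω Q hG.nn hG.row
  have h1 : ∀ n e f, pw Q n e f ≠ 0 → tm f = tm e + n := by
    intro n
    induction n with
    | zero =>
      intro e f h
      rw [hp.2.1] at h
      by_cases h' : e = f
      · subst h'; rfl
      · rw [if_neg h'] at h; exact absurd rfl h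
    | succ n ih =>
      intro e f h
      rw [hp.2.2.1] at h
      obtain ⟨a, _, ha⟩ := Finset.exists_ne_zero_of_sum_ne_zero h
      have h2 := hG.grd e a (left_ne_zero_of_mul ha)
      have h3 := ih a f (right_ne_zero_of_mul ha)
      omega
  refine ⟨h1, ?_⟩
  intro n e h
  have : Nonempty Ω := ⟨e⟩
  have hs := hS Ω Q hG.nn hG.row
  have h0 : 0 ≤ sg Q n := hs.1 n
  have hcard : (Finset.univ.filter (fun f : Ω => tm f = tm e + n)).card ≤ Fintype.card V := by
    rw [← Finset.card_univ (α := V)]
    refine Finset.card_le_card_of_injOn pr (fun f _ => by simp) ?_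
    intro f hf g hg hfg
    have hf' : tm f = tm e + n := by simpa using hf
    have hg' : tm g = tm e + n := by simpa using hg
    exact hG.inj f g hfg (by rw [hf', hg'])
  have h2 : sv Q n e ≤ (Fintype.card V : ℝ) * sg Q n := by
    unfold sv
    have h3 : ∑ f, pw Q n e f = ∑ f ∈ Finset.univ.filter (fun f : Ω => tm f = tm e + n),
        pw Q n e f := by
      symm
      refine Finset.sum_subset (Finset.filter_subset _ _) ?_
      intro f _ hf
      by_contra hne
      exact hf (by simp [h1 n e f hne])
    rw [h3]
    calc ∑ f ∈ Finset.univ.filter (fun f : Ω => tm f = tm e + n), pw Q n e f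
        ≤ ∑ f ∈ Finset.univ.filter (fun f : Ω => tm f = tm e + n), sg Q n :=
          Finset.sum_le_sum fun f _ => hs.2.1 n e f
      _ = ((Finset.univ.filter (fun f : Ω => tm f = tm e + n)).card : ℝ) * sg Q n := by
          rw [Finset.sum_const, nsmul_eq_mul]
      _ ≤ (Fintype.card V : ℝ) * sg Q n :=
          mul_le_mul_of_nonneg_right (by exact_mod_cast hcard) h0
  linarith

end Pool.MRP
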