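/-
helper25. MRP, module HTV: hitting probabilities of a bridge.
-/
import Pool.Agent.H74.MRP.Def

set_option autoImplicit false

namespace Pool.MRP

open Finset Pool.MRW
open scoped Classical

theorem t_htv (hL : LINStmt) (hS : SPLStmt) (hP : PWSStmt) (_hG : GRTStmt) : HTVStmt := by
  intro Ω V _ pr tm c Q' hQ m s e f w b hs hsm hb hbd
  have hp := hP Ω Q' hQ.nn hQ.row
  have hg : ∀ n e f, pw Q' n e f ≠ 0 → tm f = tm e + n := by
    intro n
    induction n with
    | zero =>
      intro e f h
      rw [hp.2.1] at h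
      by_cases h' : e = f
      · subst h'; rfl
      · rw [if_neg h'] at h; exact absurd rfl h
    | succ n ih =>
      intro e f h
      rw [hp.2.2.1] at h
      obtain ⟨a, _, ha⟩ := Finset.exists_ne_zero_of_sum_ne_zero h
      have h2 := hQ.grd e a (left_ne_zero_of_mul ha)
      have h3 := ih a f (right_ne_zero_of_mul ha)
      omega
  have em : m = s + (m - s) := by omega
  have hloc : Loc s (fun p : ℕ → Ω => if pr (p s) = w then (1 : ℝ) else 0) := by
    intro p p' h
    show (if pr (p s) = w then (1 : ℝ) else 0) = (if pr (p' s) = w then (1 : ℝ) else 0)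
    rw [h s le_rfl]
  have h1 := hS Ω Q' s (m - s) e f (fun p : ℕ → Ω => if pr (p s) = w then (1 : ℝ) else 0)
    (fun _ => 1) hloc
  have h2 : ∀ g, W Q' s e g (fun p : ℕ → Ω => if pr (p s) = w then (1 : ℝ) else 0) =
      (if pr g = w then 1 else 0) * pw Q' s e g := by
    intro g
    have h3 := (hL Ω Q' s e g).2.2.2.2
      (fun p : ℕ → Ω => if pr (p s) = w then (1 : ℝ) else 0)
      (fun p : ℕ → Ω => (if pr g = w then (1 : ℝ) else 0) * 1) (by
        intro p _ hpg
        show (if pr (p s) = w then (1 : ℝ) else 0) = (if pr g = w then (1 : ℝ) else 0) * 1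
        rw [hpg, mul_one])
    rw [h3, (hL Ω Q' s e g).2.1]
    rfl
  rw [← em] at h1
  have h4 : W Q' m e f (fun p => if pr (p s) = w then 1 else 0) =
      ∑ g, (if pr g = w then 1 else 0) * pw Q' s e g * pw Q' (m - s) g f := by
    have h5 : (fun p : ℕ → Ω => (if pr (p s) = w then (1 : ℝ) else 0) * 1) =
        fun p : ℕ → Ω => if pr (p s) = w then (1 : ℝ) else 0 := by
      funext p; rw [mul_one]
    have h6 : W Q' m e f (fun p : ℕ → Ω => (if pr (p s) = w then (1 : ℝ) else 0) * 1) =
        ∑ g, W Q' s e g (fun p : ℕ → Ω => if pr (p s) = w then (1 : ℝ) else 0) *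
          W Q' (m - s) g f (fun _ => 1) := h1
    rw [h5] at h6
    rw [h6]
    refine Finset.sum_congr rfl fun g _ => ?_
    rw [h2 g]
    rfl
  rw [h4]
  have hbp : 0 ≤ b * pw Q' m e f := mul_nonneg hb (hp.1 m e f)
  by_cases hex : ∃ g, pr g = w ∧ pw Q' s e g ≠ 0
  · obtain ⟨g, hg1, hg2⟩ := hex
    rw [Finset.sum_eq_single g]
    · rw [if_pos hg1, one_mul]
      exact hbd g
    · intro a _ hag
      by_cases ha : pr a = w
      · by_cases ha2 : pw Q' s e a = 0
        · rw [ha2]; ring
        · exact absurd (hQ.inj a g (by rw [ha, hg1]) (by rw [hg s e a ha2, hg s e g hg2])) hag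
      · rw [if_neg ha]; ring
    · intro h; exact absurd (Finset.mem_univ _) h
  · refine le_trans (le_of_eq (Finset.sum_eq_zero fun a _ => ?_)) hbp
    by_cases ha : pr a = w
    · have ha2 : pw Q' s e a = 0 := by
        by_contra h
        exact hex ⟨a, ha, h⟩
      rw [ha2]; ring
    · rw [if_neg ha]; ring

end Pool.MRP
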