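/-
helper25. MRP, module SRV: survival in the region below a flat pair (optional stopping).
-/
import Pool.Agent.H74.MRP.Def

set_option autoImplicit false

namespace Pool.MRP

open Finset Pool.MRW
open scoped Classical

namespace H25S

theorem sv_succ {Ω : Type} [Fintype Ω] (Q : Ω → Ω → ℝ) (n : ℕ) (e : Ω) :
    sv Q (n + 1) e = ∑ a, Q e a * sv Q n a := by
  unfold sv
  have h : ∀ f, pw Q (n + 1) e f = ∑ a, Q e a * pw Q n a f := fun f => rfl
  simp_rw [h, Finset.mul_sum]
  exact Finset.sum_comm

theorem sv_zero {Ω : Type} [Fintype Ω] (Q : Ω → Ω → ℝ) (e : Ω) : sv Q 0 e = 1 := by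
  unfold sv
  have h : ∀ f, pw Q 0 e f = if e = f then 1 else 0 := fun f => rfl
  simp_rw [h]
  simp

/-- the survival after one step into the region -/
noncomputable def SS {Ω : Type} [Fintype Ω] (G : Ω → Prop) (Q : Ω → Ω → ℝ) : ℕ → Ω → ℝ
  | 0, _ => 1
  | i + 1, e => ∑ f, Q e f * (if G f then sv (rk G Q) i f else 0)

theorem SS_eq {Ω : Type} [Fintype Ω] (G : Ω → Prop) (Q : Ω → Ω → ℝ) (i : ℕ) (e : Ω)
    (h : G e) : SS G Q i e = sv (rk G Q) i e := by
  cases i with
  | zero => rw [sv_zero]; rfl
  | succ i =>
    rw [sv_succ]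
    show ∑ f, Q e f * (if G f then sv (rk G Q) i f else 0) = _
    refine Finset.sum_congr rfl fun f _ => ?_
    unfold rk
    by_cases hf : G f
    · rw [if_pos hf, if_pos ⟨h, hf⟩]
    · rw [if_neg hf, if_neg (fun h' => hf h'.2)]; ring

end H25S

open H25S

theorem t_srv (hP : PWSStmt) (hG : GRTStmt) (hR : RKGStmt) : SRVStmt := by
  intro Ω V _ pr tm c Q hQ x z n T τ hT hTn hτ hc htau hbd
  set G : Ω → Prop := reg pr tm Q x z n T τ with hGd
  have hp := hP Ω Q hQ.nn hQ.row
  have hc0 : 0 ≤ c := (hQ.nn x x).trans (hQ.le x x)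
  have key : ∀ i, i ≤ T → ∀ e, tm e + i = tm x + T →
      pw Q (tm x + n - tm e) e z ≤
        τ / 2 + 3 / 4 * τ * SS G Q i e + 3 / 4 * τ * (c * (i : ℝ)) := by
    intro i
    induction i with
    | zero =>
      intro _ e he
      have h1 := hbd (tm x + n - tm e) (by omega) e
      have h2 : SS G Q 0 e = 1 := rfl
      rw [h2]
      push_cast
      linarith
    | succ i ih =>
      intro hi e he
      have e1 : tm x + n - tm e = (i + (n - T)) + 1 := by omega
      rw [e1, hp.2.2.1]
      have hter : ∀ f, Q e f * pw Q (i + (n - T)) f z ≤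
          Q e f * (τ / 2 + 3 / 4 * τ * (if G f then sv (rk G Q) i f else 0) +
            3 / 4 * τ * (c * (i : ℝ))) +
          3 / 4 * τ * (if pr f = pr z then Q e f else 0) := by
        intro f
        by_cases h0 : Q e f = 0
        · rw [h0]; simp
        have hf := hQ.grd e f h0
        have e2 : i + (n - T) = tm x + n - tm f := by omega
        have h3 := ih (by omega) f (by omega)
        have hq : 0 ≤ Q e f := hQ.nn e f
        have hci : 0 ≤ 3 / 4 * τ * (c * (i : ℝ)) := by positivity
        by_cases hGf : G f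
        · rw [if_pos hGf, ← SS_eq G Q i f hGf, e2]
          have h4 : 0 ≤ 3 / 4 * τ * (if pr f = pr z then Q e f else 0) := by
            split_ifs
            · positivity
            · simp
          have h5 := mul_le_mul_of_nonneg_left h3 hq
          linarith
        · rw [if_neg hGf]
          by_cases hz : pr f = pr z
          · rw [if_pos hz]
            have h6 := mul_le_mul_of_nonneg_left (hbd (i + (n - T)) (by omega) f) hq
            have h7 := mul_nonneg hq hci
            nlinarith
          · rw [if_neg hz]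
            have h8 : pw Q (tm x + n - tm f) f z < τ / 2 := by
              by_contra hh
              exact hGf ⟨by omega, by omega, hz, not_lt.mp hh⟩
            rw [← e2] at h8
            have h9 := mul_le_mul_of_nonneg_left h8.le hq
            have h7 := mul_nonneg hq hci
            nlinarith
      have hsum := Finset.sum_le_sum (s := Finset.univ) fun f _ => hter f
      have hone : ∑ f, (if pr f = pr z then Q e f else 0) ≤ c := by
        by_cases hex : ∃ g, pr g = pr z ∧ Q e g ≠ 0
        · obtain ⟨g, hg1, hg2⟩ := hex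
          have : ∑ f, (if pr f = pr z then Q e f else 0) = Q e g := by
            rw [Finset.sum_eq_single g]
            · rw [if_pos hg1]
            · intro f _ hfg
              by_cases hfz : pr f = pr z
              · rw [if_pos hfz]
                by_contra hne
                exact hfg (hQ.inj f g (by rw [hfz, hg1])
                  (by rw [hQ.grd e f hne, hQ.grd e g hg2]))
              · rw [if_neg hfz]
            · intro h; exact absurd (Finset.mem_univ _) h
          rw [this]; exact hQ.le e g
        · refine le_trans (le_of_eq (Finset.sum_eq_zero fun f _ => ?_)) hc0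
          by_cases hfz : pr f = pr z
          · rw [if_pos hfz]
            by_contra hne
            exact hex ⟨f, hfz, hne⟩
          · rw [if_neg hfz]
      have hrow := hQ.row e
      have hSS : SS G Q (i + 1) e = ∑ f, Q e f * (if G f then sv (rk G Q) i f else 0) := rfl
      have e3 : ∑ f, (Q e f * (τ / 2 + 3 / 4 * τ * (if G f then sv (rk G Q) i f else 0) +
            3 / 4 * τ * (c * (i : ℝ))) +
          3 / 4 * τ * (if pr f = pr z then Q e f else 0)) =
          (τ / 2 + 3 / 4 * τ * (c * (i : ℝ))) * ∑ f, Q e f +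
            3 / 4 * τ * SS G Q (i + 1) e +
            3 / 4 * τ * ∑ f, (if pr f = pr z then Q e f else 0) := by
        rw [hSS, Finset.mul_sum, Finset.mul_sum, Finset.mul_sum, ← Finset.sum_add_distrib,
          ← Finset.sum_add_distrib]
        refine Finset.sum_congr rfl fun f _ => by ring
      rw [e3] at hsum
      refine hsum.trans ?_
      have h10 : (τ / 2 + 3 / 4 * τ * (c * (i : ℝ))) * ∑ f, Q e f ≤
          (τ / 2 + 3 / 4 * τ * (c * (i : ℝ))) * 1 :=
        mul_le_mul_of_nonneg_left hrow (by positivity)
      have h11 : 3 / 4 * τ * ∑ f, (if pr f = pr z then Q e f else 0) ≤ 3 / 4 * τ * c :=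
        mul_le_mul_of_nonneg_left hone (by positivity)
      push_cast
      nlinarith
  have h1 := key T le_rfl x rfl
  have e4 : tm x + n - tm x = n := by omega
  rw [e4, htau] at h1
  have h2 : 1 / 2 ≤ SS G Q T x := by
    have h3 : 3 / 4 * τ * (c * (T : ℝ)) ≤ 3 / 4 * τ * (1 / 6) := by
      refine mul_le_mul_of_nonneg_left ?_ (by positivity)
      nlinarith
    have h4 : τ * (3 / 8) ≤ τ * (3 / 4 * SS G Q T x) := by nlinarith
    have h5 := le_of_mul_le_mul_left h4 hτ
    linarith
  obtain ⟨T', rfl⟩ : ∃ T', T = T' + 1 := ⟨T - 1, by omega⟩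
  have hSS : SS G Q (T' + 1) x = ∑ f, Q x f * (if G f then sv (rk G Q) T' f else 0) := rfl
  rw [hSS] at h2
  by_contra hno
  push Not at hno
  have e5 : T' + 1 - 1 = T' := by omega
  rw [e5] at hno
  -- every term is < or = Q x f / 2
  have hle : ∀ f, Q x f * (if G f then sv (rk G Q) T' f else 0) ≤ Q x f * (1 / 2) := by
    intro f
    by_cases h0 : Q x f = 0
    · rw [h0]; simp
    have hq : 0 < Q x f := lt_of_le_of_ne (hQ.nn x f) (Ne.symm h0)
    refine mul_le_mul_of_nonneg_left ?_ hq.le
    by_cases hGf : G f
    · rw [if_pos hGf]; exact (hno f hq hGf).le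
    · rw [if_neg hGf]; norm_num
  have hpos : ∃ f, 0 < Q x f := by
    by_contra hh
    push Not at hh
    have : ∑ f, Q x f * (if G f then sv (rk G Q) T' f else 0) = 0 := by
      refine Finset.sum_eq_zero fun f _ => ?_
      rw [le_antisymm (hh f) (hQ.nn x f)]; ring
    rw [this] at h2
    norm_num at h2
  obtain ⟨g, hg⟩ := hpos
  have hlt : ∑ f, Q x f * (if G f then sv (rk G Q) T' f else 0) < ∑ f, Q x f * (1 / 2) := by
    refine Finset.sum_lt_sum (fun f _ => hle f) ⟨g, Finset.mem_univ _, ?_⟩
    refine mul_lt_mul_of_pos_left ?_ hg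
    by_cases hGg : G g
    · rw [if_pos hGg]; exact hno g hg hGg
    · rw [if_neg hGg]; norm_num
  rw [← Finset.sum_mul] at hlt
  have := hQ.row x
  linarith

end Pool.MRP
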